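import Pool.Agent.H848R3.NJ.Main

set_option autoImplicit false

open H584BuDefs H848NJ

namespace Pool.Agent.Results.MP_b3a7e3_al.GroupLikeFiniteAbelianization

/-- Let `δ` be a free action of a compact quantum group `(H, Δ)` on a nonzero unital C*-algebra `A`.
Suppose that `Δ` is cocommutative, or that the only `h ∈ H` with `Δ(h) = h ⊗ 1` are the scalars.
Suppose that a finitely generated group `Γ` with finite abelianization has a nontrivial homomorphism
`u` to the group-like unitaries of `H`.  Then there is no equivariant unital `*`-homomorphism from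
`H` to the equivariant join of `A` and `H`. -/
theorem result {X Y : Type} [Nonempty X] (Q : QGroup Y) (F : FreeAction X Q)
    (hE : IsCocomm Q.H Q.Δ ∨ FixedScalar Q.H Q.Δ) (hG : HasFinAbGroup Q.H Q.Δ) :
    ¬ HasEquivToJoin Q F :=
  main' Q F hE hG

end Pool.Agent.Results.MP_b3a7e3_al.GroupLikeFiniteAbelianization
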